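import Pool.Agent.Lib.MP_688fd0_co.TE.Iface1

/-!
# Theorem E, module BASIC
-/

namespace Pool.Agent.Lib.MP_688fd0_co.TE.H17

universe u v

theorem pr_mono {Ω : Type*} [Fintype Ω] {μ : Ω → ℝ} (hμ : IsPr μ) {E F : Ω → Prop}
    (h : ∀ ω, E ω → F ω) : Pr μ E ≤ Pr μ F := by
  unfold Pr
  exact Finset.sum_le_sum fun ω _ => mul_le_mul_of_nonneg_left (ind_mono (h ω)) (hμ.nn ω)

theorem pr_nonneg {Ω : Type*} [Fintype Ω] {μ : Ω → ℝ} (hμ : IsPr μ) (E : Ω → Prop) :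
    0 ≤ Pr μ E := by
  unfold Pr
  exact Finset.sum_nonneg fun ω _ => mul_nonneg (hμ.nn ω) (ind_nonneg _)

theorem pr_le_one {Ω : Type*} [Fintype Ω] {μ : Ω → ℝ} (hμ : IsPr μ) (E : Ω → Prop) :
    Pr μ E ≤ 1 := by
  rw [← hμ.one]
  unfold Pr
  refine Finset.sum_le_sum fun ω _ => ?_
  have h1 := mul_le_mul_of_nonneg_left (ind_le_one (E ω)) (hμ.nn ω)
  rwa [mul_one] at h1

theorem pr_union {Ω : Type*} [Fintype Ω] {μ : Ω → ℝ} (hμ : IsPr μ) {κ : Type*} [Fintype κ]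
    (E : κ → Ω → Prop) : Pr μ (fun ω => ∃ i, E i ω) ≤ ∑ i, Pr μ (E i) := by
  unfold Pr
  rw [Finset.sum_comm]
  refine Finset.sum_le_sum fun ω _ => ?_
  rw [← Finset.mul_sum]
  refine mul_le_mul_of_nonneg_left ?_ (hμ.nn ω)
  by_cases h : ∃ i, E i ω
  · obtain ⟨i, hi⟩ := h
    rw [ind_of ⟨i, hi⟩, ← ind_of hi]
    exact Finset.single_le_sum (f := fun i => ind (E i ω)) (fun j _ => ind_nonneg _)
      (Finset.mem_univ i)
  · rw [ind_not h]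
    exact Finset.sum_nonneg fun j _ => ind_nonneg _

theorem markov {Ω : Type*} [Fintype Ω] {μ : Ω → ℝ} (hμ : IsPr μ) (f : Ω → ℝ) (c : ℝ)
    (hf : ∀ ω, 0 ≤ f ω) (hc : 0 < c) : Pr μ (fun ω => c ≤ f ω) ≤ Ex μ f / c := by
  rw [le_div_iff₀ hc]
  unfold Pr Ex
  rw [Finset.sum_mul]
  refine Finset.sum_le_sum fun ω _ => ?_
  rw [mul_assoc]
  refine mul_le_mul_of_nonneg_left ?_ (hμ.nn ω)
  by_cases h : c ≤ f ω
  · rw [ind_of h, one_mul]; exact h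
  · rw [ind_not h, zero_mul]; exact hf ω

theorem chebyshev {Ω : Type*} [Fintype Ω] {μ : Ω → ℝ} (hμ : IsPr μ) (f : Ω → ℝ) (c : ℝ)
    (hc : 0 < c) :
    Pr μ (fun ω => f ω ≤ Ex μ f - c) ≤ (Ex μ (fun ω => f ω ^ 2) - Ex μ f ^ 2) / c ^ 2 := by
  have h1 : Pr μ (fun ω => f ω ≤ Ex μ f - c) ≤ Pr μ (fun ω => c ^ 2 ≤ (f ω - Ex μ f) ^ 2) := by
    refine pr_mono hμ fun ω h => ?_
    have h2 : c ≤ Ex μ f - f ω := by linarith
    nlinarith
  refine h1.trans ((markov hμ (fun ω => (f ω - Ex μ f) ^ 2) (c ^ 2) (fun ω => sq_nonneg _)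
    (by positivity)).trans (le_of_eq ?_))
  congr 1
  have h3 : ∀ m : ℝ, Ex μ (fun ω => (f ω - m) ^ 2) =
      Ex μ (fun ω => f ω ^ 2) - 2 * m * Ex μ f + m ^ 2 := by
    intro m
    unfold Ex
    calc ∑ ω, μ ω * (f ω - m) ^ 2
        = ∑ ω, (μ ω * f ω ^ 2 - 2 * m * (μ ω * f ω) + m ^ 2 * μ ω) :=
          Finset.sum_congr rfl fun ω _ => by ring
      _ = _ := by
          rw [Finset.sum_add_distrib, Finset.sum_sub_distrib, ← Finset.mul_sum, ← Finset.mul_sum,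
            hμ.one, mul_one]
  rw [h3]
  ring

theorem exists_good {Ω : Type*} [Fintype Ω] {μ : Ω → ℝ} (hμ : IsPr μ) (E : Ω → Prop)
    (h : Pr μ E < 1) : ∃ ω, 0 < μ ω ∧ ¬ E ω := by
  by_contra hcon
  push Not at hcon
  have h1 : Pr μ E = 1 := by
    rw [← hμ.one]
    unfold Pr
    refine Finset.sum_congr rfl fun ω _ => ?_
    rcases (hμ.nn ω).lt_or_eq with h0 | h0
    · rw [ind_of (hcon ω h0), mul_one]
    · rw [← h0, zero_mul]
  rw [h1] at h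
  exact lt_irrefl _ h

/-- Elementary facts on `Ex` and `Pr`. -/
theorem basic : BASIC_S.{u, v} := by
  intro Ω _ μ hμ
  exact ⟨fun E F h => pr_mono hμ h, fun κ _ E => pr_union hμ E, markov hμ, chebyshev hμ,
    exists_good hμ, fun E => ⟨pr_nonneg hμ E, pr_le_one hμ E⟩⟩

end Pool.Agent.Lib.MP_688fd0_co.TE.H17
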