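import Pool.Agent.Lib.MP_688fd0_co.TE.Iface1

/-!
# Theorem E, module CURRY
-/

namespace Pool.Agent.Lib.MP_688fd0_co.TE.H17

universe u v w

/-- A product over pairs is a product of products. -/
theorem curry : CURRY_S.{u, v, w} := by
  intro ι _ _ κ _ _ α _ μ F
  unfold Ex piW
  refine Fintype.sum_equiv (Equiv.curry ι κ α) _ _ ?_
  intro ω
  simp only [Equiv.curry_apply, Function.curry]
  rw [Fintype.prod_prod_type]
  rfl

end Pool.Agent.Lib.MP_688fd0_co.TE.H17
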